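import Pool.Agent.H5.OR.Targets

/-!
# MP_e1fd52_al, board org_modules, row WF
-/

open scoped Classical

namespace Pool.Agent.H56.OR

open ORg

theorem lw_cases {X : Type} (a : X) (b : Bool) :
    lw (a, b) = bif b then FreeGroup.of a else (FreeGroup.of a)⁻¹ := by
  cases b <;> rfl

theorem map_lw {X Y : Type} (f : X → Y) (a : X) (b : Bool) :
    FreeGroup.map f (lw (a, b)) = lw (f a, b) := by
  rw [lw_cases, lw_cases]
  cases b <;> simp

theorem pf_WF : T_WF := by
  intro X _ w L lt u hLn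
  let p : X → Prop := fun x => ∃ i, (lt i).1 = x
  let e : X ≃ {x // p x} ⊕ {x // ¬ p x} := (Equiv.sumCompl p).symm
  let lt1 : ℤ → {x // p x} × Bool := fun i => (⟨(lt i).1, i, rfl⟩, (lt i).2)
  let ρ : FreeGroup X →* FreeGroup {x // p x} :=
    FreeGroup.lift (fun x => if h : p x then FreeGroup.of ⟨x, h⟩ else 1)
  have hρ : ∀ i, ρ (lw (lt i)) = lw (lt1 i) := by
    intro i
    have h1 : p (lt i).1 := ⟨i, rfl⟩
    have h2 : lt i = ((lt i).1, (lt i).2) := rfl
    rw [h2, lw_cases]
    show ρ _ = lw (⟨(lt i).1, i, rfl⟩, (lt i).2)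
    rw [lw_cases]
    cases (lt i).2
    · simp only [cond_false, map_inv]
      show (FreeGroup.lift _ _)⁻¹ = _
      rw [FreeGroup.lift_apply_of, dif_pos h1]
    · simp only [cond_true]
      show FreeGroup.lift _ _ = _
      rw [FreeGroup.lift_apply_of, dif_pos h1]
  refine ⟨{x // p x}, {x // ¬ p x}, inferInstance, inferInstance, e, ρ w, lt1,
    fun i => ρ (u i), ⟨hLn.pos, ?_, ?_, ?_, ?_, ?_⟩, ?_, ?_, ?_⟩
  · show ρ (u 0) = 1
    rw [hLn.zero, map_one]
  · intro i
    show ρ (u (i + 1)) = ρ (u i) * lw (lt1 i)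
    rw [hLn.step, map_mul, hρ]
  · intro i
    show ρ (u (i + L)) = ρ w * ρ (u i)
    rw [hLn.per, map_mul]
  · intro i
    show ((⟨(lt (i + L)).1, _⟩ : {x // p x}), (lt (i + L)).2) = (⟨(lt i).1, _⟩, (lt i).2)
    have h := hLn.lper i
    simp only [Prod.mk.injEq, Subtype.mk.injEq]
    exact ⟨congrArg Prod.fst h, congrArg Prod.snd h⟩
  · intro i h
    apply hLn.red i
    have h1 : (lt1 (i + 1)).1 = (nv (lt1 i)).1 := by rw [h]
    have h2 : (lt1 (i + 1)).2 = (nv (lt1 i)).2 := by rw [h]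
    have h3 : (lt (i + 1)).1 = (lt i).1 := congrArg Subtype.val h1
    exact Prod.ext h3 h2
  · have hu : ∀ n : ℕ, FreeGroup.map e (u n) = fl (ρ (u n)) := by
      intro n
      induction n with
      | zero =>
        have h0 : u ((0 : ℕ) : ℤ) = 1 := by
          rw [Nat.cast_zero, hLn.zero]
        rw [h0, map_one, map_one, map_one]
      | succ n ih =>
        have h1 : u ((n + 1 : ℕ) : ℤ) = u n * lw (lt n) := by
          rw [Nat.cast_succ, hLn.step]
        rw [h1, map_mul, map_mul, map_mul, ih, hρ]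
        congr 1
        have h2 : lt n = ((lt n).1, (lt n).2) := rfl
        rw [h2, map_lw]
        have h3 : lt1 n = ((⟨(lt n).1, n, rfl⟩ : {x // p x}), (lt n).2) := rfl
        rw [h3]
        show lw _ = FreeGroup.map Sum.inl _
        rw [map_lw]
        have h4 : e (lt n).1 = Sum.inl (⟨(lt n).1, n, rfl⟩ : {x // p x}) := by
          show (Equiv.sumCompl p).symm (lt n).1 = _
          exact Equiv.sumCompl_symm_apply_of_pos _
        rw [h4]
    have h1 := hu L
    have h2 : u (L : ℤ) = w := by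
      have := hLn.per 0
      rw [zero_add, hLn.zero, mul_one] at this
      exact this
    rw [h2] at h1
    exact h1
  · intro i
    show lt i = ((Equiv.sumCompl p) (Sum.inl ⟨(lt i).1, i, rfl⟩), (lt i).2)
    rw [Equiv.sumCompl_apply_inl]
  · rintro ⟨x, i, hi⟩
    exact ⟨i, Subtype.ext hi⟩

end Pool.Agent.H56.OR
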