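import Pool.Agent.H5.OR.Targets

/-!
# MP_e1fd52_al, board org_modules, row WL
-/

open scoped Classical

namespace Pool.Agent.H56.OR

open ORg

/-- the ends of a word of minimal length in its conjugacy class -/
theorem wl_ends {X : Type} (w : FreeGroup X)
    (hmin : ∀ g : FreeGroup X, w.norm ≤ (g * w * g⁻¹).norm) (L : ℕ) (hL : w.toWord.length = L + 1)
    (h0 : 0 < w.toWord.length) (h1 : L < w.toWord.length) :
    w.toWord[0] ≠ nv (w.toWord[L]) := by
  intro h
  set l := w.toWord with hl
  rcases Nat.eq_zero_or_pos L with hz | hpos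
  · subst hz
    have h2 : (l[0]).2 = !(l[0]).2 := congrArg Prod.snd h
    exact (by decide : ∀ b : Bool, b ≠ !b) _ h2
  · -- l = a :: (m ++ [b])
    obtain ⟨a, t, hat⟩ : ∃ a t, l = a :: t := by
      cases hc : l with
      | nil => rw [hc] at h0; simp at h0
      | cons a t => exact ⟨a, t, rfl⟩
    have htl : t.length = L := by
      rw [hat, List.length_cons] at hL
      omega
    have htne : t ≠ [] := by
      intro h2
      rw [h2] at htl
      simp at htl
      omega
    obtain ⟨m, b, hmb⟩ : ∃ m b, t = m ++ [b] :=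
      ⟨t.dropLast, t.getLast htne, (List.dropLast_append_getLast htne).symm⟩
    have hml : m.length + 1 = L := by
      rw [hmb, List.length_append, List.length_singleton] at htl
      exact htl
    have ha : l[0] = a := by simp [hat]
    have hb : l[L] = b := by
      have : ∀ (k : ℕ) (hk : k < l.length), k = m.length + 1 → l[k] = b := by
        intro k hk hk2
        subst hk2
        simp [hat, hmb]
      exact this L h1 hml.symm
    rw [ha, hb] at h
    have hw : w = lw a * FreeGroup.mk m * lw b := by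
      rw [← FreeGroup.mk_toWord (x := w), ← hl, hat, hmb]
      simp only [lw, FreeGroup.mul_mk]
      rfl
    have hinv : lw a = (lw b)⁻¹ := by
      rw [h]
      simp only [lw, FreeGroup.inv_mk, nv]
      rfl
    have h3 := hmin (lw b)
    have h4 : lw b * w * (lw b)⁻¹ = FreeGroup.mk m := by
      rw [hw, hinv]
      group
    rw [h4] at h3
    have h5 : (FreeGroup.mk m).norm ≤ m.length := FreeGroup.norm_mk_le
    have h6 : w.norm = L + 1 := by
      rw [FreeGroup.norm, ← hl, hL]
    omega

theorem pf_WL : T_WL := by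
  intro X w hw hmin
  have hn : w.norm ≠ 0 := fun h => hw (FreeGroup.norm_eq_zero.1 h)
  set l := w.toWord with hl
  have hlen : l.length = w.norm := rfl
  set L := w.norm with hLdef
  have hLpos : 0 < L := Nat.pos_of_ne_zero hn
  have hLz : (0 : ℤ) < (L : ℤ) := by exact_mod_cast hLpos
  -- the remainders
  have hr0 : ∀ i : ℤ, 0 ≤ i % (L : ℤ) := fun i => Int.emod_nonneg _ (by omega)
  have hr1 : ∀ i : ℤ, i % (L : ℤ) < L := fun i => Int.emod_lt_of_pos _ hLz
  have hr : ∀ i : ℤ, (i % (L : ℤ)).toNat < l.length := by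
    intro i
    have h0 := hr0 i
    have h1 := hr1 i
    omega
  have hstep : ∀ i : ℤ, (i % (L : ℤ) + 1 < L ∧ (i + 1) / (L : ℤ) = i / L ∧
      (i + 1) % (L : ℤ) = i % L + 1) ∨ (i % (L : ℤ) + 1 = L ∧ (i + 1) / (L : ℤ) = i / L + 1 ∧
      (i + 1) % (L : ℤ) = 0) := by
    intro i
    have h0 := hr0 i
    have h1 := hr1 i
    have h2 : (L : ℤ) * (i / L) + i % L = i := Int.mul_ediv_add_emod i L
    rcases lt_or_eq_of_le (show i % (L : ℤ) + 1 ≤ L by omega) with h3 | h3
    · left
      have h4 : (i + 1) / (L : ℤ) = i / L ∧ (i + 1) % (L : ℤ) = i % L + 1 := by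
        rw [Int.ediv_emod_unique hLz]
        refine ⟨by linarith, by omega, h3⟩
      exact ⟨h3, h4.1, h4.2⟩
    · right
      have h4 : (i + 1) / (L : ℤ) = i / L + 1 ∧ (i + 1) % (L : ℤ) = 0 := by
        rw [Int.ediv_emod_unique hLz]
        refine ⟨by rw [mul_add, mul_one]; linarith, le_refl _, hLz⟩
      exact ⟨h3, h4.1, h4.2⟩
  let lt : ℤ → X × Bool := fun i => l[(i % (L : ℤ)).toNat]'(hr i)
  let u : ℤ → FreeGroup X := fun i => w ^ (i / (L : ℤ)) *
    FreeGroup.mk (l.take (i % (L : ℤ)).toNat)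
  have hltc : ∀ (i : ℤ) (k : ℕ) (hk : k < l.length), (i % (L : ℤ)).toNat = k → lt i = l[k] := by
    intro i k hk h
    subst h
    rfl
  refine ⟨lt, u, hLpos, ?_, ?_, ?_, ?_, ?_⟩
  · show w ^ ((0 : ℤ) / (L : ℤ)) * FreeGroup.mk (l.take ((0 : ℤ) % (L : ℤ)).toNat) = 1
    simp [FreeGroup.one_eq_mk]
  · intro i
    show w ^ ((i + 1) / (L : ℤ)) * FreeGroup.mk (l.take ((i + 1) % (L : ℤ)).toNat) =
      w ^ (i / (L : ℤ)) * FreeGroup.mk (l.take (i % (L : ℤ)).toNat) * lw (lt i)
    have h5 : FreeGroup.mk (l.take (i % (L : ℤ)).toNat) * lw (lt i) =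
        FreeGroup.mk (l.take ((i % (L : ℤ)).toNat + 1)) := by
      rw [lw, FreeGroup.mul_mk, List.take_add_one, List.getElem?_eq_getElem (hr i)]
      rfl
    rw [mul_assoc, h5]
    rcases hstep i with ⟨h1, h2, h3⟩ | ⟨h1, h2, h3⟩
    · rw [h2, h3]
      have h0 := hr0 i
      congr 3
      omega
    · rw [h2, h3]
      have h0 := hr0 i
      have h6 : (i % (L : ℤ)).toNat + 1 = l.length := by omega
      rw [h6, List.take_length, hl, FreeGroup.mk_toWord, zpow_add_one]
      simp [FreeGroup.one_eq_mk]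
  · intro i
    show w ^ ((i + L) / (L : ℤ)) * FreeGroup.mk (l.take ((i + L) % (L : ℤ)).toNat) =
      w * (w ^ (i / (L : ℤ)) * FreeGroup.mk (l.take (i % (L : ℤ)).toNat))
    have h2 : (L : ℤ) * (i / L) + i % L = i := Int.mul_ediv_add_emod i L
    have h4 : (i + L) / (L : ℤ) = i / L + 1 ∧ (i + L) % (L : ℤ) = i % L := by
      rw [Int.ediv_emod_unique hLz]
      refine ⟨by rw [mul_add, mul_one]; linarith, hr0 i, hr1 i⟩
    rw [h4.1, h4.2, ← mul_assoc, ← zpow_one_add, add_comm 1 (i / (L : ℤ))]
  · intro i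
    have h4 : lt (i + L) = l[(i % (L : ℤ)).toNat]'(hr i) := by
      apply hltc
      rw [Int.add_emod_right]
    exact h4
  · intro i h
    rcases hstep i with ⟨h1, h2, h3⟩ | ⟨h1, h2, h3⟩
    · have h0 := hr0 i
      have hk : (i % (L : ℤ)).toNat + 1 < l.length := by omega
      have h4 : lt (i + 1) = l[(i % (L : ℤ)).toNat + 1]'hk := by
        apply hltc
        rw [h3]
        omega
      have h5 : FreeGroup.IsReduced l := FreeGroup.isReduced_toWord
      have h6 := List.isChain_iff_getElem.1 h5 (i % (L : ℤ)).toNat hk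
      have h45 : lt i = l[(i % (L : ℤ)).toNat]'(hr i) := rfl
      rw [h4, h45] at h
      have h7 : (l[(i % (L : ℤ)).toNat + 1]'hk).1 = (l[(i % (L : ℤ)).toNat]'(hr i)).1 := by
        rw [h]
        rfl
      have h8 : (l[(i % (L : ℤ)).toNat + 1]'hk).2 = !(l[(i % (L : ℤ)).toNat]'(hr i)).2 := by
        rw [h]
        rfl
      have h9 := h6 h7.symm
      rw [← h9] at h8
      exact (by decide : ∀ b : Bool, b ≠ !b) _ h8
    · have h0 := hr0 i
      have h4 : lt (i + 1) = l[0] := by
        apply hltc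
        rw [h3]
        rfl
      have hk : L - 1 < l.length := by omega
      have h5 : lt i = l[L - 1] := by
        apply hltc
        omega
      rw [h4, h5] at h
      have hk1 : l.length = L - 1 + 1 := by omega
      exact wl_ends w hmin (L - 1) hk1 (by rw [hlen]; exact hLpos) hk h

end Pool.Agent.H56.OR
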