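import Pool.Agent.H5.OR.Targets

/-!
# MP_e1fd52_al, board org_modules, row WR
-/

open scoped Classical

namespace Pool.Agent.H56.OR

open ORg

/-- the automorphism which inverts all generators -/
theorem wr_inv (X : Type) : ∃ f : FreeGroup X ≃* FreeGroup X, ∀ a : X,
    f (FreeGroup.of a)⁻¹ = FreeGroup.of a := by
  let f : FreeGroup X →* FreeGroup X := FreeGroup.lift (fun x => (FreeGroup.of x)⁻¹)
  have hf : ∀ a, f (FreeGroup.of a) = (FreeGroup.of a)⁻¹ := fun a => by
    show FreeGroup.lift _ _ = _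
    rw [FreeGroup.lift_apply_of]
  have hff : f.comp f = MonoidHom.id _ := by
    apply FreeGroup.ext_hom
    intro a
    rw [MonoidHom.comp_apply, hf, map_inv, hf, inv_inv, MonoidHom.id_apply]
  refine ⟨MonoidHom.toMulEquiv f f hff hff, fun a => ?_⟩
  show f (FreeGroup.of a)⁻¹ = _
  rw [map_inv, hf, inv_inv]

theorem pf_WR (WM : T_WM) (WG : T_WG) (WF : T_WF) : T_WR := by
  intro X _ w hroot hprim
  have hw : w ≠ 1 := by
    intro h
    have := hroot 1 0 (by rw [zpow_zero, h])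
    omega
  obtain ⟨α, L, lt, u, hLn, hcut⟩ := WM X w hw
  obtain ⟨X1, X2, hf1, hf2, e, w1, lt1, u1, hLn1, he, hlt, hall⟩ := WF X (α w) L lt u hLn
  haveI := hf1
  let ι : X1 × Bool → X × Bool := fun z => (e.symm (Sum.inl z.1), z.2)
  have hι : Function.Injective ι := by
    intro z z' h
    have h1 : e.symm (Sum.inl z.1) = e.symm (Sum.inl z'.1) := congrArg Prod.fst h
    have h2 : (ι z).2 = (ι z').2 := by rw [h]
    exact Prod.ext (Sum.inl_injective (e.symm.injective h1)) h2
  have hlt' : ∀ i, lt i = ι (lt1 i) := hlt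
  have hnv : ∀ z, nv (ι z) = ι (nv z) := fun z => rfl
  have hcut1 : ∀ (A : Set (X1 × Bool)) (x : X1 × Bool), x ∈ A → nv x ∉ A → Cut L lt1 A x := by
    intro A x hx hnx
    have h := hcut (ι '' A) (ι x) ⟨x, hx, rfl⟩ (by
      rw [hnv, hι.mem_set_image]
      exact hnx)
    unfold Cut at h ⊢
    have h1 : ∀ i, (lt i = ι x ∨ lt i = nv (ι x)) ↔ (lt1 i = x ∨ lt1 i = nv x) := by
      intro i
      rw [hlt', hnv, hι.eq_iff, hι.eq_iff]
    have h2 : ∀ i, (¬ (nv (lt i) ∈ ι '' A ↔ lt (i + 1) ∈ ι '' A)) ↔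
        (¬ (nv (lt1 i) ∈ A ↔ lt1 (i + 1) ∈ A)) := by
      intro i
      rw [hlt', hlt', hnv, hι.mem_set_image, hι.mem_set_image]
    simp only [h1, h2] at h
    exact h
  have hWh : WhG lt1 := WG X1 w1 L lt1 u1 hLn1 hcut1 hall
  have hroot1 : Root w1 := by
    intro v k hv
    apply hroot ((α.trans (FreeGroup.freeGroupCongr e)).symm (fl v)) k
    rw [← map_zpow, ← map_zpow, hv, MulEquiv.symm_apply_eq]
    exact he.symm
  refine ⟨X1, X2, hf1, hf2, α.trans (FreeGroup.freeGroupCongr e), w1, he, hroot1,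
    ⟨L, lt1, u1, hLn1, hWh⟩, ?_⟩
  by_contra hnt
  rw [not_nontrivial_iff_subsingleton] at hnt
  set x0 := (lt1 0).1 with hx0
  have hpow : ∀ n : ℕ, ∃ k : ℤ, u1 n = FreeGroup.of x0 ^ k := by
    intro n
    induction n with
    | zero => exact ⟨0, by rw [Nat.cast_zero, hLn1.zero, zpow_zero]⟩
    | succ n ih =>
      obtain ⟨k, hk⟩ := ih
      have h1 : (lt1 n).1 = x0 := Subsingleton.elim _ _
      have h2 : lt1 n = (x0, (lt1 n).2) := Prod.ext h1 rfl
      rw [Nat.cast_succ, hLn1.step, hk, h2]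
      cases (lt1 n).2
      · exact ⟨k - 1, by
          rw [zpow_sub_one]
          rfl⟩
      · exact ⟨k + 1, by
          rw [zpow_add_one]
          rfl⟩
  obtain ⟨k, hk⟩ := hpow L
  have hL : u1 L = w1 := by
    have := hLn1.per 0
    rw [zero_add, hLn1.zero, mul_one] at this
    exact this
  rw [hL] at hk
  have hof : FreeGroup.freeGroupCongr e (FreeGroup.of (e.symm (Sum.inl x0))) =
      fl (FreeGroup.of x0) := by
    rw [FreeGroup.freeGroupCongr_apply, FreeGroup.map.of, FreeGroup.map.of,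
      Equiv.apply_symm_apply]
  rcases hroot1 _ k hk.symm with h | h
  · subst h
    apply hprim
    refine ⟨α, e.symm (Sum.inl x0), ?_⟩
    apply (FreeGroup.freeGroupCongr e).injective
    rw [he, hof, hk, zpow_one]
  · subst h
    obtain ⟨f, hf⟩ := wr_inv X
    apply hprim
    refine ⟨α.trans f, e.symm (Sum.inl x0), ?_⟩
    have h1 : α w = (FreeGroup.of (e.symm (Sum.inl x0)))⁻¹ := by
      apply (FreeGroup.freeGroupCongr e).injective
      rw [he, map_inv, hof, hk, zpow_neg, zpow_one, map_inv]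
    rw [MulEquiv.trans_apply, h1, hf]

end Pool.Agent.H56.OR
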