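import Pool.Agent.H5.OR.Targets

/-!
# MP_e1fd52_al, board org_modules, row WM
-/

open scoped Classical

namespace Pool.Agent.H56.OR

open ORg

theorem wm_card (n : ℕ) :
    (do let a ← Finset.range n; pure (a : ℤ) : Finset ℤ).card ≤ n := by
  have h : (do let a ← Finset.range n; pure (a : ℤ) : Finset ℤ) =
      (Finset.range n).image (fun a : ℕ => (a : ℤ)) := by
    ext z
    simp [Finset.bind_def, Finset.mem_sup, eq_comm]
  rw [h]
  exact Finset.card_image_le.trans_eq (Finset.card_range n)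

theorem pf_WM (WB : T_WB) (WL : T_WL) : T_WM := by
  intro X w hw
  have hex : ∃ n : ℕ, ∃ α : FreeGroup X ≃* FreeGroup X, (α w).norm = n :=
    ⟨w.norm, MulEquiv.refl _, rfl⟩
  obtain ⟨α, hα⟩ := Nat.find_spec hex
  have hmin : ∀ β : FreeGroup X ≃* FreeGroup X, (α w).norm ≤ (β w).norm := by
    intro β
    rw [hα]
    exact Nat.find_min' hex ⟨β, rfl⟩
  have h1 : α w ≠ 1 := fun h => hw ((MulEquiv.map_eq_one_iff α).1 h)
  obtain ⟨lt, u, hLn⟩ := WL X (α w) h1 (fun g => by
    have := hmin (α.trans (MulAut.conj g))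
    simpa using this)
  refine ⟨α, (α w).norm, lt, u, hLn, ?_⟩
  intro A x hx hnx
  obtain ⟨φ, g, hφ⟩ := WB X (α w) (α w).norm lt u hLn A x hx hnx
  have h2 : (α w).norm ≤ (g * φ (α w) * g⁻¹).norm := by
    have := hmin ((α.trans φ).trans (MulAut.conj g))
    simpa using this
  have h3 := Finset.card_filter_add_card_filter_not
    (s := (do let a ← Finset.range (α w).norm; pure (a : ℤ) : Finset ℤ))
    (fun i : ℤ => lt i = x ∨ lt i = nv x)
  have h4 := wm_card (α w).norm
  rw [Cut]
  omega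

end Pool.Agent.H56.OR
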